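import Pool.Agent.K1H53.BI.Plan2

set_option autoImplicit false

open scoped ENNReal
open Finset

namespace Pool.Agent.K1H11.BI2

open Pool.Agent.K1H53.BI

theorem Ex_swap {α β : Type} (p : PMF α) (q : PMF β) (F : α → β → ℝ≥0∞) :
    Ex p (fun a => Ex q (fun b => F a b)) = Ex q (fun b => Ex p (fun a => F a b)) := by
  unfold Ex
  simp only [← ENNReal.tsum_mul_left]
  rw [ENNReal.tsum_comm]
  simp only [mul_left_comm]

theorem Eqv.refl (s : St) : Eqv s s := ⟨rfl, List.Perm.refl _, rfl⟩

theorem put_eqv {s s' : St} (h : Eqv s s') (y : V) : Eqv (put s y) (put s' y) := by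
  unfold put
  rw [h.A]
  split_ifs
  · exact ⟨rfl, h.L.cons y, h.m⟩
  · exact ⟨rfl, h.L, h.m⟩

theorem put_put (s : St) (y z : V) : Eqv (put (put s y) z) (put (put s z) y) := by
  by_cases hyz : y = z
  · subst hyz; exact Eqv.refl _
  · have hzy : z ≠ y := fun h => hyz h.symm
    by_cases hy : y ∈ s.A
    · by_cases hz : z ∈ s.A
      · simp only [put, hy, hz, if_true]
        exact ⟨rfl, List.Perm.swap _ _ _, rfl⟩
      · simp only [put, hy, hz, if_true, if_false, mem_insert, hyz, false_or]
        exact Eqv.refl _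
    · by_cases hz : z ∈ s.A
      · simp only [put, hy, hz, if_true, if_false, mem_insert, hzy, false_or]
        exact Eqv.refl _
      · simp only [put, hy, hz, if_false, mem_insert, hyz, hzy, false_or]
        exact ⟨Finset.insert_comm _ _ _, List.Perm.refl _, rfl⟩

theorem put_addp (s : St) (y z : V) : Eqv (put (addp y s) z) (addp y (put s z)) := by
  by_cases hz : z ∈ s.A
  · simp only [put, addp, hz, if_true]
    exact ⟨rfl, List.Perm.swap _ _ _, rfl⟩
  · simp only [put, addp, hz, if_false]
    exact Eqv.refl _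

theorem put_lau (s : St) (z : V) : Eqv (put (lau s) z) (lau (put s z)) := by
  by_cases hz : z ∈ s.A
  · simp only [put, lau, hz, if_true]
    exact ⟨rfl, List.Perm.swap _ _ _, rfl⟩
  · simp only [put, lau, hz, if_false]
    exact Eqv.refl _

/-- one step of one child -/
noncomputable def P (x : V) (g : St → ℝ≥0∞) (s : St) : ℝ≥0∞ :=
  Ex (PMF.uniformOfFintype (Fin 3 × Bool)) fun e => g (put s (x + dir e))

/-- the children -/
noncomputable def C (x : V) (k : ℕ) (f : St → ℝ≥0∞) (s : St) : ℝ≥0∞ := Ex (children x k s) f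

theorem C_zero (x : V) (f : St → ℝ≥0∞) : C x 0 f = f := by
  funext s
  exact Ex_pure s f

theorem C_succ (x : V) (k : ℕ) (f : St → ℝ≥0∞) : C x (k + 1) f = P x (C x k f) := by
  funext s
  unfold C P
  rw [children, Ex_bind]

theorem P_sym (x : V) {g : St → ℝ≥0∞} (hg : Sym g) : Sym (P x g) := by
  intro s s' h
  unfold P
  congr 1
  funext e
  exact hg _ _ (put_eqv h _)

theorem C_sym (x : V) (k : ℕ) {f : St → ℝ≥0∞} (hf : Sym f) : Sym (C x k f) := by
  induction k with
  | zero => rw [C_zero]; exact hf
  | succ k ih => rw [C_succ]; exact P_sym x ih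

theorem P_comm (x y : V) {g : St → ℝ≥0∞} (hg : Sym g) : P x (P y g) = P y (P x g) := by
  funext s
  unfold P
  rw [Ex_swap]
  congr 1
  funext e
  congr 1
  funext e'
  exact hg _ _ (put_put _ _ _)

theorem PC_comm (x y : V) (l : ℕ) {f : St → ℝ≥0∞} (hf : Sym f) :
    P x (C y l f) = C y l (P x f) := by
  induction l with
  | zero => rw [C_zero, C_zero]
  | succ l ih => rw [C_succ, P_comm x y (C_sym y l hf), ih, C_succ]

theorem CC_comm (x y : V) (k l : ℕ) {f : St → ℝ≥0∞} (hf : Sym f) :
    C x k (C y l f) = C y l (C x k f) := by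
  induction k with
  | zero => rw [C_zero, C_zero]
  | succ k ih => rw [C_succ, ih, PC_comm x y l (C_sym x k hf), C_succ]

theorem C_addp (x y : V) (k : ℕ) {f : St → ℝ≥0∞} (hf : Sym f) (s : St) :
    C x k f (addp y s) = C x k (fun s' => f (addp y s')) s := by
  induction k generalizing s with
  | zero => rw [C_zero, C_zero]
  | succ k ih =>
    rw [C_succ, C_succ]
    unfold P
    congr 1
    funext e
    rw [← ih]
    exact C_sym x k hf _ _ (put_addp _ _ _)

theorem C_lau (x : V) (k : ℕ) {f : St → ℝ≥0∞} (hf : Sym f) (s : St) :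
    C x k f (lau s) = C x k (fun s' => f (lau s')) s := by
  induction k generalizing s with
  | zero => rw [C_zero, C_zero]
  | succ k ih =>
    rw [C_succ, C_succ]
    unfold P
    congr 1
    funext e
    rw [← ih]
    exact C_sym x k hf _ _ (put_lau _ _)

theorem Ex_top (ν : PMF ℕ) (x : V) (s : St) (f : St → ℝ≥0∞) :
    Ex (top ν x s) f = Ex ν (fun k => C x k f s) := by
  unfold top C
  rw [Ex_bind]

theorem put_mono (s : St) (y : V) :
    (put s y).m = s.m ∧ s.L.length ≤ (put s y).L.length ∧ s.A ⊆ (put s y).A := by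
  unfold put
  split_ifs
  · exact ⟨rfl, by simp, Finset.Subset.refl _⟩
  · exact ⟨rfl, le_refl _, Finset.subset_insert _ _⟩

theorem children_mono (x : V) (k : ℕ) (s s' : St) (h : children x k s s' ≠ 0) :
    s'.m = s.m ∧ s.L.length ≤ s'.L.length ∧ s.A ⊆ s'.A := by
  induction k generalizing s with
  | zero =>
    have h1 : s' ∈ (children x 0 s).support := (PMF.mem_support_iff _ _).2 h
    rw [children, PMF.support_pure, Set.mem_singleton_iff] at h1
    subst h1
    exact ⟨rfl, le_refl _, Finset.Subset.refl _⟩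
  | succ k ih =>
    have h1 : s' ∈ (children x (k + 1) s).support := (PMF.mem_support_iff _ _).2 h
    rw [children, PMF.mem_support_bind_iff] at h1
    obtain ⟨e, -, h2⟩ := h1
    obtain ⟨h3, h4, h5⟩ := ih _ ((PMF.mem_support_iff _ _).1 h2)
    obtain ⟨h6, h7, h8⟩ := put_mono s (x + dir e)
    exact ⟨h3.trans h6, h7.trans h4, h8.trans h5⟩

/-- branching events commute -/
theorem t_COM : S_COM := by
  refine ⟨fun ν f hf => ⟨?_, ?_, ?_, ?_⟩, ?_⟩
  · intro x s s' h
    simp only [Ex_top]
    congr 1
    funext k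
    exact C_sym x k hf _ _ h
  · intro x y s
    have h1 : ∀ x y : V, Ex (top ν x s) (fun s' => Ex (top ν y s') f) =
        Ex ν (fun k => Ex ν (fun l => C x k (C y l f) s)) := by
      intro x y
      rw [Ex_top]
      congr 1
      funext k
      unfold C
      rw [← Ex_swap]
      congr 1
      funext s'
      rw [Ex_top]
      rfl
    rw [h1, h1, Ex_swap]
    congr 1
    funext l
    congr 1
    funext k
    rw [CC_comm x y k l hf]
  · intro x y s
    rw [Ex_top, Ex_top]
    congr 1
    funext k
    exact C_addp x y k hf s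
  · intro x s
    rw [Ex_top, Ex_top]
    congr 1
    funext k
    exact C_lau x k hf s
  · intro ν x s s' h
    have h1 : s' ∈ (top ν x s).support := (PMF.mem_support_iff _ _).2 h
    rw [top, PMF.mem_support_bind_iff] at h1
    obtain ⟨k, -, h2⟩ := h1
    exact children_mono x k s s' ((PMF.mem_support_iff _ _).1 h2)

end Pool.Agent.K1H11.BI2
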