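import Pool.Agent.K1H2.BI.Stm

set_option autoImplicit false

namespace Pool.Agent.K1H11.BI

open Pool.Agent.K1H2.BI
open scoped BigOperators

theorem arrive_sub (x : Site) (es : List Dir) (p : Finset Site × List Site) :
    p.1 ⊆ (arrive x es p).1 := by
  induction es generalizing p with
  | nil => exact Finset.Subset.refl _
  | cons e es ih =>
    unfold arrive
    refine Finset.Subset.trans ?_ (ih _)
    split_ifs
    · exact Finset.Subset.refl _
    · exact Finset.subset_insert _ _

theorem arrive_card (x : Site) (es : List Dir) (p : Finset Site × List Site) :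
    (arrive x es p).1.card + (arrive x es p).2.length = p.1.card + p.2.length + es.length := by
  induction es generalizing p with
  | nil => simp [arrive]
  | cons e es ih =>
    unfold arrive
    rw [ih]
    split_ifs with h
    · simp only [List.length_cons]; omega
    · simp only [List.length_cons, Finset.card_insert_of_notMem h]; omega

theorem arrive_mem (x : Site) (es : List Dir) (p : Finset Site × List Site)
    (hp : ∀ y ∈ p.2, y ∈ p.1) : ∀ y ∈ (arrive x es p).2, y ∈ (arrive x es p).1 := by
  induction es generalizing p with
  | nil => exact hp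
  | cons e es ih =>
    unfold arrive
    refine ih _ ?_
    split_ifs with h
    · intro y hy
      rcases List.mem_cons.1 hy with rfl | hy
      · exact h
      · exact hp y hy
    · intro y hy
      exact Finset.mem_insert_of_mem (hp y hy)

theorem arrive_sum (x : Site) (es : List Dir) (p : Finset Site × List Site) (h : Site → ℝ) :
    (∑ y ∈ (arrive x es p).1, h y) + ((arrive x es p).2.map h).sum =
      (∑ y ∈ p.1, h y) + (p.2.map h).sum + (es.map fun e => h (x + stepOf e)).sum := by
  induction es generalizing p with
  | nil => simp [arrive]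
  | cons e es ih =>
    unfold arrive
    rw [ih]
    split_ifs with hh
    · simp only [List.map_cons, List.sum_cons]; ring
    · simp only [List.map_cons, List.sum_cons, Finset.sum_insert hh]; ring

theorem arrive_le (x : Site) (es : List Dir) (p : Finset Site × List Site) (h : Site → ℝ)
    (hh : ∀ y, 0 ≤ h y) :
    ((arrive x es p).2.map h).sum ≤
      (p.2.map h).sum + (es.map fun e => h (x + stepOf e)).sum := by
  induction es generalizing p with
  | nil => simp [arrive]
  | cons e es ih =>
    unfold arrive
    refine (ih _).trans ?_
    have := hh (x + stepOf e)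
    split_ifs with h1
    · simp only [List.map_cons, List.sum_cons]; linarith
    · simp only [List.map_cons, List.sum_cons]; linarith

theorem pick_lt (L : List Site) (u : ℝ) (hL : L ≠ []) : pick L u < L.length := by
  have : 0 < L.length := List.length_pos_iff.2 hL
  unfold pick
  omega

theorem erase_sum (L : List Site) (k : ℕ) (hk : k < L.length) (h : Site → ℝ) :
    ((L.eraseIdx k).map h).sum = (L.map h).sum - h (L.getD k 0) := by
  induction L generalizing k with
  | nil => simp at hk
  | cons a L ih =>
    cases k with
    | zero => simp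
    | succ k =>
      simp only [List.eraseIdx_cons_succ, List.map_cons, List.sum_cons, List.getD_cons_succ]
      rw [ih k (by simpa using hk)]
      ring

theorem phi_zero {b : ℝ} (hb : 0 ≤ b) : phi b 0 = 0 := by
  unfold phi nsq
  simp [hb]

theorem pot_zero {R : ℝ} : pot R 0 = (R + 1) ^ 2 := by
  unfold pot nsq
  simp [sq_nonneg]

theorem pot_nn (R : ℝ) (x : Site) : 0 ≤ pot R x := le_max_right _ _

theorem listsum_nn {α : Type*} (l : List α) (f : α → ℝ) (hf : ∀ a, 0 ≤ f a) :
    0 ≤ (l.map f).sum := by
  refine List.sum_nonneg ?_
  intro x hx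
  obtain ⟨a, -, rfl⟩ := List.mem_map.1 hx
  exact hf a

/-- one event, pathwise -/
theorem t_PATH : S_PATH := by
  intro s i hs
  obtain ⟨hL, hLA, h0, ht⟩ := hs
  have hk := pick_lt s.L i.2 hL
  have hwho : who s i ∈ s.L := by
    unfold who
    rw [List.getD_eq_getElem _ _ hk]
    exact List.getElem_mem hk
  have hlen : (s.L.eraseIdx (pick s.L i.2)).length = s.L.length - 1 :=
    List.length_eraseIdx_of_lt hk
  have hpos : 0 < s.L.length := List.length_pos_iff.2 hL
  have hcard : (raw s i).1.card + (raw s i).2.length = s.A.card + (s.L.length - 1) + i.1.length := by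
    unfold raw
    rw [arrive_card, hlen]
  have hsub : s.A ⊆ (raw s i).1 := arrive_sub _ _ (s.A, _)
  have hmem : ∀ y ∈ (raw s i).2, y ∈ (raw s i).1 := by
    refine arrive_mem _ _ _ ?_
    intro y hy
    exact hLA y (List.mem_of_mem_eraseIdx hy)
  have hsum : ∀ h : Site → ℝ, (∑ y ∈ (raw s i).1, h y) + ((raw s i).2.map h).sum =
      (∑ y ∈ s.A, h y) + ((s.L.map h).sum - h (who s i)) +
        (i.1.map fun e => h (who s i + stepOf e)).sum := by
    intro h
    have := arrive_sum (who s i) i.1 (s.A, s.L.eraseIdx (pick s.L i.2)) h
    rw [show who s i = s.L.getD (pick s.L i.2) 0 from rfl, ← erase_sum s.L _ hk h]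
    exact this
  have hle : ∀ h : Site → ℝ, (∀ y, 0 ≤ h y) → ((raw s i).2.map h).sum ≤
      ((s.L.map h).sum - h (who s i)) + (i.1.map fun e => h (who s i + stepOf e)).sum := by
    intro h hh
    have := arrive_le (who s i) i.1 (s.A, s.L.eraseIdx (pick s.L i.2)) h hh
    rw [show who s i = s.L.getD (pick s.L i.2) 0 from rfl, ← erase_sum s.L _ hk h]
    exact this
  have hcard' : ((raw s i).1.card : ℝ) + (raw s i).2.length =
      s.A.card + (s.L.length - 1) + i.1.length := by
    have h1 : ((s.L.length - 1 : ℕ) : ℝ) = (s.L.length : ℝ) - 1 := by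
      rw [Nat.cast_sub (by omega)]; simp
    rw [← h1]
    exact_mod_cast hcard
  by_cases hraw : (raw s i).2 = []
  · have he : event s i = ⟨(raw s i).1, [0], s.t + 1⟩ := by
      unfold event; rw [if_pos hraw]
    rw [he]
    rw [hraw] at hcard'
    refine ⟨hwho, ⟨by simp, ?_, hsub h0, by simp⟩, hsub, ?_, Or.inr ⟨rfl, rfl⟩, ?_, ?_⟩
    · intro x hx
      rw [List.mem_singleton] at hx
      rw [hx]
      exact hsub h0
    · unfold S
      simp only [List.length_nil, List.length_singleton] at hcard' ⊢
      push_cast at hcard' ⊢
      linarith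
    · intro b hb
      have := hsum (phi b)
      rw [hraw] at this
      unfold Y
      simp only [List.map_nil, List.sum_nil, List.map_cons, List.sum_cons, phi_zero hb] at this ⊢
      linarith
    · intro R m hR
      have := hle (pot R) (pot_nn R)
      rw [hraw] at this
      unfold G
      simp only [List.map_nil, List.sum_nil, List.map_cons, List.sum_cons, pot_zero] at this ⊢
      push_cast
      nlinarith
  · have he : event s i = ⟨(raw s i).1, (raw s i).2, s.t⟩ := by
      unfold event; rw [if_neg hraw]
    rw [he]
    refine ⟨hwho, ⟨hraw, hmem, hsub h0, ht⟩, hsub, ?_, Or.inl rfl, ?_, ?_⟩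
    · unfold S
      simp only
      linarith
    · intro b hb
      have := hsum (phi b)
      unfold Y
      simp only
      linarith
    · intro R m hR
      have := hle (pot R) (pot_nn R)
      unfold G
      simp only
      linarith

end Pool.Agent.K1H11.BI
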