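import Pool.Agent.K1H53.BI.Plan

/-!
The stopped process stops, and all launches end (piece TERM).
-/

set_option autoImplicit false

open scoped ENNReal
open Finset

namespace Pool.Agent.K1H11.BI

open Pool.Agent.K1H53.BI

lemma ind_pos {α : Type} {P : α → Prop} {a : α} (h : P a) : ind P a = 1 := if_pos h

lemma ind_neg {α : Type} {P : α → Prop} {a : α} (h : ¬ P a) : ind P a = 0 := if_neg h

lemma ind_le_one {α : Type} (P : α → Prop) (a : α) : ind P a ≤ 1 := by
  by_cases h : P a
  · rw [ind_pos h]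
  · rw [ind_neg h]; exact zero_le_one

lemma Ex_le_one {α : Type} (p : PMF α) (P : α → Prop) : Ex p (ind P) ≤ 1 :=
  (Ex_mono p fun a _ => ind_le_one P a).trans (Ex_const p 1).le

lemma stepD_out {ν : PMF ℕ} {R : ℕ} {s : St} (h : ¬ In R s) : stepD ν R s = PMF.pure s := if_neg h

lemma stepD_in {ν : PMF ℕ} {R : ℕ} {s : St} (h : In R s) : stepD ν R s = step ν s := if_pos h

lemma step_nil {ν : PMF ℕ} {s : St} (h : s.L = []) :
    step ν s = PMF.pure (if s.m = 0 then s else ⟨s.A, [0], s.m - 1⟩) := by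
  unfold step
  rw [dif_pos h]

lemma put_m (s : St) (y : V) : (put s y).m = s.m := by
  unfold put
  split_ifs <;> rfl

lemma Ex_children_m (x : V) (k : ℕ) (s : St) :
    Ex (children x k s) (fun s' => (s'.m : ℝ≥0∞)) = s.m := by
  induction k generalizing s with
  | zero => exact Ex_pure s _
  | succ k ih =>
    show Ex ((PMF.uniformOfFintype (Fin 3 × Bool)).bind
      fun e => children x k (put s (x + dir e))) _ = _
    rw [Ex_bind]
    simp only [ih, put_m]
    exact Ex_const _ _

lemma Ex_step_m {ν : PMF ℕ} {s : St} (h : s.L ≠ []) :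
    Ex (step ν s) (fun s' => (s'.m : ℝ≥0∞)) = s.m := by
  unfold step
  rw [dif_neg h, Ex_bind]
  simp only [Ex_bind, Ex_children_m, Ex_const]

/-- a launch is waiting in the ball -/
def Q (R : ℕ) (s : St) : Prop := In R s ∧ s.L = [] ∧ s.m ≠ 0

/-- the process has not stopped -/
def E (R : ℕ) (s : St) : Prop := In R s ∧ ¬ Fin' s

lemma step_Q {ν : PMF ℕ} {R : ℕ} (s : St) :
    Ex (stepD ν R s) (fun s' => (s'.m : ℝ≥0∞)) + ind (Q R) s ≤ s.m := by
  by_cases h : In R s
  · rw [stepD_in h]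
    by_cases hL : s.L = []
    · rw [step_nil hL, Ex_pure]
      by_cases hm : s.m = 0
      · rw [if_pos hm, ind_neg (fun hq => hq.2.2 hm), add_zero]
      · rw [if_neg hm, ind_pos ⟨h, hL, hm⟩]
        have : s.m = (s.m - 1) + 1 := by omega
        show (((s.m - 1 : ℕ)) : ℝ≥0∞) + 1 ≤ (s.m : ℝ≥0∞)
        conv_rhs => rw [this]
        rw [Nat.cast_add, Nat.cast_one]
    · rw [Ex_step_m hL, ind_neg (fun hq => hL hq.2.1), add_zero]
  · rw [stepD_out h, Ex_pure, ind_neg (fun hq => h hq.1), add_zero]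

lemma step_E {ν : PMF ℕ} {R : ℕ} (s : St) : Ex (stepD ν R s) (ind (E R)) ≤ ind (E R) s := by
  by_cases h : E R s
  · rw [ind_pos h]
    exact Ex_le_one _ _
  · by_cases hR : In R s
    · have hF : Fin' s := by
        by_contra hF
        exact h ⟨hR, hF⟩
      rw [stepD_in hR, step_nil hF.1, Ex_pure, if_pos hF.2]
    · rw [stepD_out hR, Ex_pure]

lemma ind_E_le (R : ℕ) (s : St) : ind (E R) s ≤ ind (Proc R) s + ind (Q R) s := by
  by_cases h : E R s
  · rw [ind_pos h]
    by_cases hL : s.L = []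
    · have hm : s.m ≠ 0 := fun hm => h.2 ⟨hL, hm⟩
      rw [ind_pos (P := Q R) ⟨h.1, hL, hm⟩]
      exact le_add_self
    · rw [ind_pos (P := Proc R) ⟨hL, h.1⟩]
      exact le_self_add
  · rw [ind_neg h]
    exact zero_le

/-- the sum over the waiting launches -/
lemma sum_Q (ν : PMF ℕ) (R T n : ℕ) :
    ∑ u ∈ range n, Ex (law (stepD ν R) T u) (ind (Q R)) +
      Ex (law (stepD ν R) T n) (fun s => (s.m : ℝ≥0∞)) ≤ ((T - 1 : ℕ) : ℝ≥0∞) := by
  induction n with
  | zero =>
    rw [Finset.sum_range_zero, zero_add]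
    exact (Ex_pure _ _).le
  | succ n ih =>
    rw [Finset.sum_range_succ]
    have h1 : Ex (law (stepD ν R) T (n + 1)) (fun s => (s.m : ℝ≥0∞)) +
        Ex (law (stepD ν R) T n) (ind (Q R)) ≤
        Ex (law (stepD ν R) T n) (fun s => (s.m : ℝ≥0∞)) := by
      show Ex ((law (stepD ν R) T n).bind (stepD ν R)) _ + _ ≤ _
      rw [Ex_bind, ← Ex_add]
      exact Ex_mono _ fun s _ => step_Q s
    calc _ = ∑ u ∈ range n, Ex (law (stepD ν R) T u) (ind (Q R)) +
          (Ex (law (stepD ν R) T (n + 1)) (fun s => (s.m : ℝ≥0∞)) +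
            Ex (law (stepD ν R) T n) (ind (Q R))) := by
          rw [add_assoc, add_comm (Ex (law (stepD ν R) T n) (ind (Q R)))]
      _ ≤ _ := (add_le_add le_rfl h1).trans ih

lemma anti_E (ν : PMF ℕ) (R T : ℕ) :
    Antitone fun n => Ex (law (stepD ν R) T n) (ind (E R)) := by
  refine antitone_nat_of_succ_le fun n => ?_
  show Ex ((law (stepD ν R) T n).bind (stepD ν R)) _ ≤ _
  rw [Ex_bind]
  exact Ex_mono _ fun s _ => step_E s

/-- the bound of the probability that the process has not stopped -/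
lemma bd_E {ν : PMF ℕ} {R T : ℕ} (hEN : ∀ n, EN ν R T n ≤ T * (R + 1) ^ 2) (n : ℕ) :
    (n : ℝ≥0∞) * Ex (law (stepD ν R) T n) (ind (E R)) ≤ T * (R + 1) ^ 2 + T := by
  have h1 : (n : ℝ≥0∞) * Ex (law (stepD ν R) T n) (ind (E R)) ≤
      ∑ u ∈ range n, Ex (law (stepD ν R) T u) (ind (E R)) := by
    have h := Finset.card_nsmul_le_sum (range n)
      (fun u => Ex (law (stepD ν R) T u) (ind (E R))) (Ex (law (stepD ν R) T n) (ind (E R)))
      (fun u hu => anti_E ν R T (Finset.mem_range.1 hu).le)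
    rw [Finset.card_range, nsmul_eq_mul] at h
    exact h
  have h2 : ∑ u ∈ range n, Ex (law (stepD ν R) T u) (ind (E R)) ≤
      EN ν R T n + ∑ u ∈ range n, Ex (law (stepD ν R) T u) (ind (Q R)) := by
    unfold EN
    rw [← Finset.sum_add_distrib]
    refine Finset.sum_le_sum fun u _ => ?_
    rw [← Ex_add]
    exact Ex_mono _ fun s _ => ind_E_le R s
  refine h1.trans (h2.trans (add_le_add (hEN n) ?_))
  refine (le_self_add.trans (sum_Q ν R T n)).trans ?_
  exact_mod_cast Nat.sub_le T 1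

/-- **TERM** -/
theorem t_TERM : S_TERM := by
  intro hInv hSum hRel ν σ2 M T hOff hT
  -- (a)
  have ha : ∀ (R : ℕ) (ε : ℝ), 0 < ε → ∃ n₀ : ℕ, ∀ n, n₀ ≤ n →
      Ex (law (stepD ν R) T n) (ind fun s => In R s ∧ ¬ Fin' s) ≤ ENNReal.ofReal ε := by
    intro R ε hε
    obtain ⟨n₀, hn₀⟩ := exists_nat_gt (((T : ℝ) * (R + 1) ^ 2 + T) / ε)
    refine ⟨n₀, fun n hn => ?_⟩
    have hK : 0 ≤ (T : ℝ) * (R + 1) ^ 2 + T := by positivity
    have hn1 : ((T : ℝ) * (R + 1) ^ 2 + T) / ε < n := hn₀.trans_le (by exact_mod_cast hn)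
    have hn0 : (0 : ℝ) < n := lt_of_le_of_lt (by positivity) hn1
    have h1 := bd_E (ν := ν) (R := R) (T := T)
      (fun n => (hSum ν σ2 M R T n hOff hT).2) n
    have h2 : (T : ℝ≥0∞) * (R + 1) ^ 2 + T = ENNReal.ofReal ((T : ℝ) * (R + 1) ^ 2 + T) := by
      have : (T : ℝ) * (R + 1) ^ 2 + T = ((T * (R + 1) ^ 2 + T : ℕ) : ℝ) := by push_cast; ring
      rw [this, ENNReal.ofReal_natCast]
      push_cast
      ring
    rw [h2] at h1
    have h3 : ENNReal.ofReal ((T : ℝ) * (R + 1) ^ 2 + T) ≤ (n : ℝ≥0∞) * ENNReal.ofReal ε := by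
      rw [← ENNReal.ofReal_natCast n, ← ENNReal.ofReal_mul hn0.le]
      refine ENNReal.ofReal_le_ofReal ?_
      rw [div_lt_iff₀ hε] at hn1
      exact hn1.le
    have h4 := h1.trans h3
    have hn0' : (n : ℝ≥0∞) ≠ 0 := by
      have : n ≠ 0 := by
        rintro rfl
        simp at hn0
      exact_mod_cast this
    exact (ENNReal.mul_le_mul_iff_right hn0' (ENNReal.natCast_ne_top n)).1 h4
  -- (b)
  have hb : ∀ ε : ℝ, 0 < ε → ∃ n₀ : ℕ, ∀ n, n₀ ≤ n →
      Ex (law (step ν) T n) (ind fun s => ¬ Fin' s) ≤ ENNReal.ofReal ε := by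
    intro ε hε
    obtain ⟨R, hR⟩ := exists_nat_gt ((T : ℝ) / (ε / 2))
    have hε2 : 0 < ε / 2 := by positivity
    have hR0 : (0 : ℝ) < R := lt_of_le_of_lt (by positivity) hR
    obtain ⟨n₀, hn₀⟩ := ha R (ε / 2) hε2
    refine ⟨n₀, fun n hn => ?_⟩
    -- the stopped process outside the ball
    have h1 : (R : ℝ≥0∞) * Ex (law (stepD ν R) T n) (ind fun s => ¬ In R s) ≤ T := by
      rw [← (hSum ν σ2 M R T n hOff hT).1, ← Ex_const_mul]
      refine Ex_mono _ fun s hs => ?_
      by_cases h : In R s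
      · rw [ind_neg (fun h' => h' h), mul_zero]
        exact zero_le
      · rw [ind_pos (P := fun s => ¬ In R s) h, mul_one]
        have hg := (hInv ν R T n s).2 hs
        unfold In at h
        push Not at h
        obtain ⟨z, hz, hz'⟩ := h
        have h2 := hg.size z hz
        have h3 : R ^ 2 < s.A.card ^ 2 := lt_of_lt_of_le hz' h2
        have h4 : R < s.A.card := lt_of_pow_lt_pow_left₀ 2 (Nat.zero_le _) h3
        have h5 : R ≤ yy s := by unfold yy; omega
        exact_mod_cast h5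
    have h2 : Ex (law (stepD ν R) T n) (ind fun s => ¬ In R s) ≤ ENNReal.ofReal (ε / 2) := by
      have h3 : (T : ℝ≥0∞) ≤ (R : ℝ≥0∞) * ENNReal.ofReal (ε / 2) := by
        rw [← ENNReal.ofReal_natCast R, ← ENNReal.ofReal_mul hR0.le, ← ENNReal.ofReal_natCast T]
        refine ENNReal.ofReal_le_ofReal ?_
        rw [div_lt_iff₀ hε2] at hR
        exact hR.le
      have hR0' : (R : ℝ≥0∞) ≠ 0 := by
        have : R ≠ 0 := by
          rintro rfl
          simp at hR0
        exact_mod_cast this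
      exact (ENNReal.mul_le_mul_iff_right hR0' (ENNReal.natCast_ne_top R)).1 (h1.trans h3)
    have h3 := hn₀ n hn
    have h4 : Ex (law (stepD ν R) T n) (fun s => ind (In R) s * ind Fin' s) +
        (Ex (law (stepD ν R) T n) (ind fun s => In R s ∧ ¬ Fin' s) +
          Ex (law (stepD ν R) T n) (ind fun s => ¬ In R s)) = 1 := by
      rw [← Ex_add, ← Ex_add]
      refine Eq.trans (Ex_congr _ fun s _ => ?_) (Ex_const _ 1)
      by_cases hR : In R s
      · by_cases hF : Fin' s
        · rw [ind_pos hR, ind_pos hF, ind_neg (fun h => h.2 hF), ind_neg (fun h => h hR)]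
          simp
        · rw [ind_neg hF, ind_pos (P := fun s => In R s ∧ ¬ Fin' s) ⟨hR, hF⟩,
            ind_neg (P := fun s => ¬ In R s) (fun h => h hR)]
          simp
      · rw [ind_neg hR, ind_neg (P := fun s => In R s ∧ ¬ Fin' s) (fun h => hR h.1),
          ind_pos (P := fun s => ¬ In R s) hR]
        simp
    rw [← (hRel ν R T).1 n (ind Fin')] at h4
    have h5 : Ex (law (step ν) T n) (fun s => ind (In R) s * ind Fin' s) ≤
        Ex (law (step ν) T n) (ind Fin') := Ex_mono _ fun s _ => by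
      calc ind (In R) s * ind Fin' s ≤ 1 * ind Fin' s :=
            mul_le_mul_left (ind_le_one _ _) _
        _ = _ := one_mul _
    have h6 : Ex (law (step ν) T n) (ind Fin') +
        Ex (law (step ν) T n) (ind fun s => ¬ Fin' s) = 1 := by
      rw [← Ex_add]
      refine Eq.trans (Ex_congr _ fun s _ => ?_) (Ex_const _ 1)
      by_cases hF : Fin' s
      · rw [ind_pos hF, ind_neg (fun h => h hF), add_zero]
      · rw [ind_neg hF, ind_pos (P := fun s => ¬ Fin' s) hF, zero_add]
    have h7 : Ex (law (step ν) T n) (ind Fin') +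
        Ex (law (step ν) T n) (ind fun s => ¬ Fin' s) ≤
        Ex (law (step ν) T n) (ind Fin') + ENNReal.ofReal ε := by
      rw [h6, ← h4]
      refine add_le_add h5 ?_
      have : ENNReal.ofReal ε = ENNReal.ofReal (ε / 2) + ENNReal.ofReal (ε / 2) := by
        rw [← ENNReal.ofReal_add hε2.le hε2.le, add_halves]
      rw [this]
      exact add_le_add h3 h2
    exact (ENNReal.add_le_add_iff_left
      ((Ex_le_one _ _).trans_lt ENNReal.one_lt_top).ne).1 h7
  have hprob : ∀ (G : Finset V → Prop) (n : ℕ),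
      Ex (law (step ν) T n) (ind fun s => Fin' s ∧ G s.A) ≤ prob ν T G := fun G n =>
    le_iSup (fun n => Ex (law (step ν) T n) (ind fun s => Fin' s ∧ G s.A)) n
  refine ⟨ha, ?_, ?_⟩
  · refine le_antisymm (iSup_le fun n => Ex_le_one _ _) ?_
    refine ENNReal.le_of_forall_pos_le_add fun ε hε _ => ?_
    obtain ⟨n, hn⟩ := hb ε (by exact_mod_cast hε)
    have h1 := hn n le_rfl
    rw [ENNReal.ofReal_coe_nnreal] at h1
    calc (1 : ℝ≥0∞) = Ex (law (step ν) T n) (ind fun s => Fin' s ∧ True) +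
          Ex (law (step ν) T n) (ind fun s => ¬ Fin' s) := by
          rw [← Ex_add]
          refine ((Ex_congr _ fun s _ => ?_).trans (Ex_const _ 1)).symm
          by_cases hF : Fin' s
          · rw [ind_pos (P := fun s => Fin' s ∧ True) ⟨hF, trivial⟩,
              ind_neg (fun h => h hF), add_zero]
          · rw [ind_neg (P := fun s => Fin' s ∧ True) (fun h => hF h.1),
              ind_pos (P := fun s => ¬ Fin' s) hF, zero_add]
      _ ≤ _ := add_le_add (hprob _ n) h1
  · intro G R n hG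
    refine ENNReal.le_of_forall_pos_le_add fun ε hε _ => ?_
    obtain ⟨m, hm⟩ := hb ε (by exact_mod_cast hε)
    have h1 := hm (max n m) (le_max_right _ _)
    rw [ENNReal.ofReal_coe_nnreal] at h1
    have h2 := (hRel ν R T).2.1 (le_max_left n m)
    refine h2.trans ?_
    calc Ex (law (step ν) T (max n m)) (ind fun s => ¬ In R s)
        ≤ Ex (law (step ν) T (max n m)) (ind fun s => Fin' s ∧ G s.A) +
          Ex (law (step ν) T (max n m)) (ind fun s => ¬ Fin' s) := by
          rw [← Ex_add]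
          refine Ex_mono _ fun s _ => ?_
          by_cases hR : In R s
          · rw [ind_neg (fun h => h hR)]
            exact zero_le
          · by_cases hF : Fin' s
            · rw [ind_pos (P := fun s => Fin' s ∧ G s.A) ⟨hF, hG s hR⟩]
              exact (ind_le_one _ _).trans le_self_add
            · rw [ind_pos (P := fun s => ¬ Fin' s) hF]
              exact (ind_le_one _ _).trans le_add_self
      _ ≤ _ := add_le_add (hprob _ _) h1

end Pool.Agent.K1H11.BI
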